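import Pool.Agent.helper12.TY.Spec

/-!
Row YM1 of project ty: the first part of the theorem.
-/

set_option autoImplicit false

namespace Pool.Agent.TY

open Pool.Agent.helper58.DC Pool.Agent.DI Pool.Agent.GR Pool.Agent.OB Pool.Agent.TZ

/-- Exchange of two finite sums. -/
theorem YM1_comm {ι : Type} [Finite ι] (f : ι → ℤ → ℤ) (h : ∀ i, {d | f i d ≠ 0}.Finite) :
    ∑ᶠ i, ∑ᶠ d, f i d = ∑ᶠ d, ∑ᶠ i, f i d := by
  have := Fintype.ofFinite ι
  rw [finsum_eq_sum_of_fintype, ← finsum_sum_comm Finset.univ (fun d i => f i d) (fun i _ => h i)]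
  refine finsum_congr fun d => ?_
  rw [finsum_eq_sum_of_fintype]

/-- Row YM1. -/
theorem YM1 (hYJC : YJC_stmt) (hRE : RE_stmt) (hFN : FN_stmt) : YM1_stmt := by
  intro p c M hS G E A _ _ _ _ _ X K hK hpK hop χ hχ D x hD z hz hzc hzn
  have hA : Finite A := Finite.of_surjective X.proj X.proj_surjective
  have h1 := hYJC p c M hS G (K.comap X.proj) K (resE X K) hK hpK hop χ hχ D x hD z hz hzc hzn
  have h2 : aS (resE X K) p M χ ⊤ = ∑ᶠ V : {V : Subgroup A // K ≤ V}, aS X p M χ V.1 := by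
    unfold aS
    rw [YM1_comm (fun (V : {V : Subgroup A // K ≤ V}) d => altSum X p M χ d V.1)
      (fun V => hFN G E A X p M χ V.1)]
    exact finsum_congr fun d => hRE G E A X p M χ hχ d K
  rw [← h2]
  exact h1

end Pool.Agent.TY
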